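import Pool.Agent.Helper46.DZ2.St

/-! # Project DZ2 (MP_b3ce06_al), module `NUM`: choice of the parameters -/

set_option autoImplicit false

namespace Pool.Agent.Helper92.DZ2

open Pool.Agent.Helper46.DZ2

/-- primes dividing `2^n - 1`, `n ≥ 5` prime, are at least `2n+1` -/
lemma prime_ge {n p : ℕ} (hn : n.Prime) (h5 : 5 ≤ n) (hp : p.Prime) (hd : p ∣ 2 ^ n - 1) :
    2 * n + 1 ≤ p := by
  have : Fact p.Prime := ⟨hp⟩
  have : Fact n.Prime := ⟨hn⟩
  have h1 : 1 ≤ 2 ^ n := Nat.one_le_two_pow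
  have hz : ((2 : ZMod p)) ^ n = 1 := by
    have h := (ZMod.natCast_eq_zero_iff (2 ^ n - 1) p).2 hd
    rw [Nat.cast_sub h1] at h
    push_cast at h
    exact sub_eq_zero.1 h
  have h2 : (2 : ZMod p) ≠ 1 := by
    intro h
    have : (1 : ZMod p) = 0 := by
      have e : (2 : ZMod p) = 1 + 1 := by norm_num
      rw [e] at h
      exact add_eq_left.1 h
    exact one_ne_zero this
  have h0 : (2 : ZMod p) ≠ 0 := by
    intro h
    rw [h, zero_pow hn.ne_zero] at hz
    exact zero_ne_one hz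
  have ho : orderOf (2 : ZMod p) = n := orderOf_eq_prime hz h2
  have hdv : n ∣ p - 1 := ho ▸ ZMod.orderOf_dvd_card_sub_one h0
  have hp2 : p ≠ 2 := by
    rintro rfl
    apply h0
    exact_mod_cast ZMod.natCast_self 2
  have hodd : 2 ∣ p - 1 := by
    have := hp.eq_two_or_odd'.resolve_left hp2
    obtain ⟨k, hk⟩ := this
    exact ⟨k, by omega⟩
  have hnodd : Nat.Coprime 2 n := by
    rw [Nat.coprime_two_left]
    exact hn.eq_two_or_odd'.resolve_left (by omega)
  have h2n : 2 * n ∣ p - 1 := hnodd.mul_dvd_of_dvd_of_dvd hodd hdv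
  have hpos : 0 < p - 1 := by have := hp.two_le; omega
  have := Nat.le_of_dvd hpos h2n
  omega

/-- the totient bound -/
lemma totient_bound {n M : ℕ} (hn : n.Prime) (h5 : 5 ≤ n) (h1 : 1 < M) (hM : M ∣ 2 ^ n - 1) :
    6 * (M - M.totient) < M := by
  have hNpos : 0 < 2 ^ n - 1 := by
    have : 2 ^ 5 ≤ 2 ^ n := Nat.pow_le_pow_right (by norm_num) h5
    omega
  have hMlt : M < 2 ^ n := by
    have := Nat.le_of_dvd hNpos hM
    omega
  set J := M.primeFactors.card with hJ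
  have hge : ∀ p ∈ M.primeFactors, 2 * n + 1 ≤ p := fun p hp =>
    prime_ge hn h5 (Nat.prime_of_mem_primeFactors hp) ((Nat.dvd_of_mem_primeFactors hp).trans hM)
  have h8 : 8 ^ J ≤ ∏ p ∈ M.primeFactors, p :=
    Finset.pow_card_le_prod _ _ _ fun p hp => by have := hge p hp; omega
  have h8' : 8 ^ J < 2 ^ n := by
    have := Nat.le_of_dvd (by omega) (Nat.prod_primeFactors_dvd M)
    omega
  have h3J : 3 * J < n := by
    have e : (8 : ℕ) ^ J = 2 ^ (3 * J) := by rw [pow_mul]; norm_num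
    rw [e] at h8'
    exact (Nat.pow_lt_pow_iff_right (by norm_num)).1 h8'
  -- the product
  have hq : (M.totient : ℚ) ≥ M * (1 - J / (2 * n + 1)) := by
    rw [Nat.totient_eq_mul_prod_factors]
    refine mul_le_mul_of_nonneg_left ?_ (Nat.cast_nonneg _)
    have hnpos : (0 : ℚ) < 2 * n + 1 := by positivity
    have hb : (1 : ℚ) - J / (2 * n + 1) ≤ (1 - 1 / (2 * n + 1)) ^ J := by
      have h := one_add_mul_le_pow (a := -(1 / (2 * (n : ℚ) + 1))) (by
        have : (1 : ℚ) / (2 * n + 1) ≤ 1 := by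
          rw [div_le_one hnpos]
          have : (0 : ℚ) ≤ n := Nat.cast_nonneg _
          linarith
        linarith) J
      calc (1 : ℚ) - J / (2 * n + 1) = 1 + J * -(1 / (2 * n + 1)) := by ring
        _ ≤ (1 + -(1 / (2 * n + 1))) ^ J := h
        _ = (1 - 1 / (2 * n + 1)) ^ J := by rw [← sub_eq_add_neg]
    refine hb.trans ?_
    have hprod : ∏ _p ∈ M.primeFactors, (1 - 1 / (2 * (n : ℚ) + 1)) ≤
        ∏ p ∈ M.primeFactors, (1 - (p : ℚ)⁻¹) := by
      refine Finset.prod_le_prod ?_ ?_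
      · intro p _
        have : (1 : ℚ) / (2 * n + 1) ≤ 1 := by
          rw [div_le_one hnpos]
          have : (0 : ℚ) ≤ n := Nat.cast_nonneg _
          linarith
        linarith
      · intro p hp
        have h := hge p hp
        have h' : (2 * (n : ℚ) + 1) ≤ p := by exact_mod_cast h
        have : (p : ℚ)⁻¹ ≤ 1 / (2 * n + 1) := by
          rw [← one_div]
          exact one_div_le_one_div_of_le hnpos h'
        linarith
    rwa [Finset.prod_const] at hprod
  have hle : M.totient ≤ M := Nat.totient_le M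
  have hMpos : (0 : ℚ) < M := by exact_mod_cast (by omega : 0 < M)
  have hfin : (6 * (M - M.totient) : ℚ) < M := by
    have hnpos : (0 : ℚ) < 2 * n + 1 := by positivity
    have h3 : (3 * J + 1 : ℚ) ≤ n := by exact_mod_cast h3J
    have hlt : (J : ℚ) / (2 * n + 1) < 1 / 6 := by
      rw [div_lt_div_iff₀ hnpos (by norm_num)]
      linarith
    have : (M : ℚ) * (J / (2 * n + 1)) < M * (1 / 6) := mul_lt_mul_of_pos_left hlt hMpos
    nlinarith
  have : (((6 * (M - M.totient) : ℕ)) : ℚ) < M := by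
    push_cast [Nat.cast_sub hle]
    exact hfin
  exact_mod_cast this

/-- the exponent `e` -/
lemma exists_e {N M : ℕ} (hN : 0 < N) (hodd : Odd N) (h1 : 1 < M) (hM : M ∣ N) :
    ∃ e : ℕ, 0 < e ∧ e ≡ 1 [MOD M] ∧ Nat.gcd N (e ^ 2 - 1) = M := by
  classical
  -- the largest divisor coprime to `M`
  have hne : (N.divisors.filter (fun d => Nat.Coprime d M)).Nonempty :=
    ⟨1, by simp [hN.ne']⟩
  obtain ⟨N₁, hN₁, hmax⟩ := Finset.exists_max_image _ id hne
  simp only [Finset.mem_filter, Nat.mem_divisors, id] at hN₁ hmax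
  obtain ⟨⟨hd1, -⟩, hco⟩ := hN₁
  obtain ⟨N₂, hN₂⟩ := hd1
  have hN₁pos : 0 < N₁ := Nat.pos_of_ne_zero (by rintro rfl; simp at hN₂; omega)
  have hN₂pos : 0 < N₂ := Nat.pos_of_ne_zero (by rintro rfl; simp at hN₂; omega)
  have hpr : ∀ p : ℕ, p.Prime → p ∣ N₂ → p ∣ M := by
    intro p hp hpd
    by_contra hpM
    have hco' : Nat.Coprime (N₁ * p) M := Nat.Coprime.mul_left hco ((Nat.Prime.coprime_iff_not_dvd hp).2 hpM)
    have hle := hmax (N₁ * p) ⟨⟨by rw [hN₂]; exact Nat.mul_dvd_mul_left _ hpd, hN.ne'⟩, hco'⟩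
    have := hp.two_le
    nlinarith
  have hco12 : Nat.Coprime N₁ N₂ := by
    refine Nat.Coprime.symm (Nat.coprime_of_dvd ?_)
    intro p hp hp2 hp1
    have := Nat.dvd_gcd hp1 (hpr p hp hp2)
    rw [hco] at this
    exact hp.one_lt.ne' (Nat.dvd_one.1 this)
  have hMN₂ : M ∣ N₂ := by
    have : M ∣ N₁ * N₂ := hN₂ ▸ hM
    exact hco.symm.dvd_of_dvd_mul_left this
  obtain ⟨e, he1, he2⟩ := Nat.chineseRemainder hco12 0 (1 + M)
  have heM : e ≡ 1 [MOD M] := by
    have h := he2.of_dvd hMN₂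
    have h' : 1 + M ≡ 1 [MOD M] := by simp [Nat.ModEq]
    exact h.trans h'
  have hepos : 0 < e := by
    rcases Nat.eq_zero_or_pos e with h | h
    · exfalso
      subst h
      have : M ∣ 1 := (Nat.modEq_zero_iff_dvd).1 heM.symm
      have := Nat.le_of_dvd one_pos this
      omega
    · exact h
  refine ⟨e, hepos, heM, ?_⟩
  have hesq : 1 ≤ e ^ 2 := Nat.one_le_pow _ _ hepos
  have hg : Nat.gcd N (e ^ 2 - 1) = Nat.gcd N₁ (e ^ 2 - 1) * Nat.gcd N₂ (e ^ 2 - 1) := by
    rw [hN₂, Nat.gcd_comm, hco12.gcd_mul, Nat.gcd_comm, Nat.gcd_comm N₂]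
  have hg1 : Nat.gcd N₁ (e ^ 2 - 1) = 1 := by
    refine Nat.coprime_of_dvd ?_
    intro p hp hp1 hp2
    have hpe : p ∣ e := (Nat.modEq_zero_iff_dvd.1 he1) |> fun h => hp1.trans h
    have hpe2 : p ∣ e ^ 2 := dvd_pow hpe two_ne_zero
    have : p ∣ 1 := by
      have h := (Nat.dvd_sub hpe2 hp2)
      have e3 : e ^ 2 - (e ^ 2 - 1) = 1 := by omega
      rwa [e3] at h
    exact hp.one_lt.ne' (Nat.dvd_one.1 this)
  have hmod : e ^ 2 - 1 ≡ M * (M + 2) [MOD N₂] := by
    have h := he2.pow 2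
    have e4 : (1 + M) ^ 2 = M * (M + 2) + 1 := by ring
    rw [e4] at h
    have e5 : e ^ 2 = (e ^ 2 - 1) + 1 := by omega
    rw [e5] at h
    exact Nat.ModEq.add_right_cancel' 1 h
  have hg2 : Nat.gcd N₂ (e ^ 2 - 1) = M := by
    rw [Nat.gcd_comm, hmod.gcd_eq, Nat.gcd_comm]
    obtain ⟨c, hc⟩ := hMN₂
    rw [hc, Nat.gcd_mul_left]
    have hcop : Nat.gcd c (M + 2) = 1 := by
      refine Nat.coprime_of_dvd ?_
      intro p hp hp1 hp2
      have hpM : p ∣ M := hpr p hp (by rw [hc]; exact hp1.mul_left _)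
      have hp2' : p ∣ 2 := (Nat.dvd_add_right hpM).1 hp2
      have hpeq : p = 2 := (Nat.prime_dvd_prime_iff_eq hp Nat.prime_two).1 hp2'
      subst hpeq
      have : 2 ∣ N := hpM.trans hM
      obtain ⟨k, hk⟩ := hodd
      omega
    rw [hcop, mul_one]
  rw [hg, hg1, hg2, one_mul]

theorem hNum : StNum := by
  intro n hn h5
  have hNpos : 0 < 2 ^ n - 1 := by
    have : 2 ^ 5 ≤ 2 ^ n := Nat.pow_le_pow_right (by norm_num) h5
    omega
  have hN31 : 31 ≤ 2 ^ n - 1 := by
    have : 2 ^ 5 ≤ 2 ^ n := Nat.pow_le_pow_right (by norm_num) h5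
    omega
  have hodd : Odd (2 ^ n - 1) := by
    have h2 : 2 ∣ 2 ^ n := dvd_pow_self 2 hn.ne_zero
    obtain ⟨k, hk⟩ := h2
    exact ⟨k - 1, by omega⟩
  set K := GaloisField 2 n with hK
  have hcard : Nat.card K = 2 ^ n := GaloisField.card 2 n hn.ne_zero
  have : Finite K := Nat.finite_of_card_ne_zero (by rw [hcard]; positivity)
  have hcu : Nat.card Kˣ = 2 ^ n - 1 := by rw [Nat.card_units, hcard]
  have hpow : ∀ x : K, x ≠ 0 → x ^ (2 ^ n - 1) = 1 := by
    intro x hx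
    have h := pow_card_eq_one' (x := Units.mk0 x hx)
    rw [hcu] at h
    have h' := congrArg Units.val h
    simpa using h'
  have htwo : (2 : K) = 0 := by
    have := CharP.cast_eq_zero K 2
    exact_mod_cast this
  have hadd : ∀ a : K, a + a = 0 := by intro a; rw [← two_mul, htwo, zero_mul]
  -- existence
  have hex : ∃ m : ℕ, ∃ x : K, x ≠ 0 ∧ (∃ l : ℕ, 1 + x = x ^ l) ∧ orderOf x = m := by
    obtain ⟨g, hg⟩ := IsCyclic.exists_monoid_generator (α := Kˣ)
    have hg1 : (g : K) ≠ 1 := by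
      intro h
      have hg1' : g = 1 := Units.ext h
      have hall : ∀ y : Kˣ, y = 1 := by
        intro y
        obtain ⟨k, hk⟩ := hg y
        rw [hg1'] at hk
        simpa using hk.symm
      have hc1 : Nat.card Kˣ ≤ 1 := by
        have : Subsingleton Kˣ := ⟨fun a b => by rw [hall a, hall b]⟩
        exact Finite.card_le_one_iff_subsingleton.2 inferInstance
      rw [hcu] at hc1
      omega
    have hne : (1 : K) + g ≠ 0 := by
      intro h
      apply hg1
      have h2 : (1 : K) + 1 = 0 := hadd 1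
      have : (1 : K) + g = 1 + 1 := h.trans h2.symm
      exact add_left_cancel this
    obtain ⟨l, hl⟩ := hg (Units.mk0 _ hne)
    refine ⟨_, (g : K), g.ne_zero, ⟨l, ?_⟩, rfl⟩
    have h := congrArg Units.val hl
    simpa using h.symm
  classical
  obtain ⟨x, hx0, ⟨l, hl⟩, hxo⟩ := Nat.find_spec hex
  set M := Nat.find hex with hMdef
  have hmin : ∀ y : K, y ≠ 0 → (∃ l : ℕ, 1 + y = y ^ l) → M ≤ orderOf y := fun y hy0 hyl =>
    Nat.find_min' hex ⟨y, hy0, hyl, rfl⟩
  have hMdvd : M ∣ 2 ^ n - 1 := hxo ▸ orderOf_dvd_of_pow_eq_one (hpow x hx0)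
  have hMpos : 0 < M := Nat.pos_of_dvd_of_pos hMdvd hNpos
  have hM1 : 1 < M := by
    rcases Nat.lt_or_ge 1 M with h | h
    · exact h
    · exfalso
      have hM1 : M = 1 := by omega
      have hx1 : x = 1 := orderOf_eq_one_iff.1 (hxo.trans hM1)
      rw [hx1, one_pow, hadd] at hl
      exact zero_ne_one hl
  obtain ⟨e, he0, heM, hgcd⟩ := exists_e hNpos hodd hM1 hMdvd
  refine ⟨M, l, e, x, hM1, hMdvd, totient_bound hn h5 hM1 hMdvd, hxo, hl, ?_, he0, heM, hgcd⟩
  intro y hyM hyl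
  have hy0 : y ≠ 0 := by
    rintro rfl
    rw [zero_pow hMpos.ne'] at hyM
    exact zero_ne_one hyM
  exact le_antisymm (Nat.le_of_dvd hMpos (orderOf_dvd_of_pow_eq_one hyM)) (hmin y hy0 ⟨l, hyl⟩)

end Pool.Agent.Helper92.DZ2
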